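import Pool.Agent.H89.U3.Stmts

/-!
# Project U3 (MP_0c7934_co): BASE

`H = ZMod 4`, one mode supported at `1`, with the value `e ^ (i arctan s)`.
-/

namespace Pool.Agent.H37.U3

open Pool.Agent.H26.U Pool.Agent.H15.U Pool.Agent.H89.MOD Pool.Agent.H89.U3

/-- the mode -/
noncomputable def bf (s : Fin 1 → ℝ) (_ : Fin 1) (h : ZMod 4) : ℂ :=
  if h = 1 then Complex.exp (Complex.I * ((Real.arctan (s 0) : ℝ) : ℂ)) else 0

lemma norm_bf (s : Fin 1 → ℝ) (j : Fin 1) : ‖bf s j 1‖ = 1 := by
  unfold bf
  rw [if_pos rfl, mul_comm, Complex.norm_exp_ofReal_mul_I]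

lemma continuous_bf : Continuous bf := by
  refine continuous_pi fun j => continuous_pi fun h => ?_
  unfold bf
  by_cases hh : h = 1
  · simp only [if_pos hh]
    exact Complex.continuous_exp.comp (continuous_const.mul (Complex.continuous_ofReal.comp
      (Real.continuous_arctan.comp (continuous_apply 0))))
  · simp only [if_neg hh]
    exact continuous_const

lemma injective_bf : Function.Injective bf := by
  intro s s' h
  have h1 : bf s 0 1 = bf s' 0 1 := by rw [h]
  unfold bf at h1
  rw [if_pos rfl, if_pos rfl, mul_comm Complex.I, mul_comm Complex.I] at h1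
  have h2 : ∀ x : ℝ, Real.arctan x = (Complex.exp ((Real.arctan x : ℝ) * Complex.I)).arg := by
    intro x
    have a1 := Real.neg_pi_div_two_lt_arctan x
    have a2 := Real.arctan_lt_pi_div_two x
    rw [Complex.arg_exp_mul_I]
    refine ((toIocMod_eq_self Real.two_pi_pos).2 ?_).symm
    constructor
    · linarith [Real.pi_pos]
    · linarith [Real.pi_pos]
  have h3 : Real.arctan (s 0) = Real.arctan (s' 0) := by
    rw [h2 (s 0), h2 (s' 0), h1]
  have h4 := Real.arctan_injective h3
  funext i
  rw [Subsingleton.elim i 0]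
  exact h4

/-- **BASE** -/
theorem BASE (hC : S_CAR) (hT : S_TRI) : S_BASE := by
  obtain ⟨ι, i1, i2, ⟨F⟩, hc⟩ := hC 1
  have h := hT 1 ι F (by rw [hc]; norm_num) (ZMod 4) 2 (by decide) (by decide) 1 bf continuous_bf
    injective_bf ?_ ?_ ?_
  · rw [hc, ZMod.card] at h
    exact h
  · intro s j
    exact ⟨if_neg (by decide), if_neg (by decide)⟩
  · intro h h0 h2
    refine ⟨0, ?_, fun i hi => absurd (Subsingleton.elim i 0) hi⟩
    have h3 : h = 1 ∨ h = 3 := by
      revert h
      decide
    rcases h3 with h3 | h3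
    · left
      intro s
      subst h3
      exact ⟨norm_bf s 0, if_neg (by decide)⟩
    · right
      intro s
      subst h3
      refine ⟨if_neg (by decide), ?_⟩
      have h4 : (-3 : ZMod 4) = 1 := by decide
      rw [h4]
      exact norm_bf s 0
  · intro s x hx
    refine Finset.sum_eq_zero fun j _ => ?_
    unfold acf
    refine Finset.sum_eq_zero fun y _ => ?_
    unfold bf
    by_cases hy : y = 1
    · subst hy
      have h5 : (1 : ZMod 4) - x ≠ 1 := by
        intro h6
        exact hx (by simpa using h6)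
      rw [if_neg h5]
      simp
    · rw [if_neg hy, zero_mul]

end Pool.Agent.H37.U3
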